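import Mathlib

set_option autoImplicit false

/-!
Linear recurrence sequences over a prime field without zero terms: a positive proportion.
-/

namespace Pool.Agent.H884R2.Sko
open Finset Polynomial

/-- The linear recurrence sequence with coefficients `c` and initial values `u`:
`s (n + d) = ∑ i, c i * s (n + i)`, `s i = u i` for `i < d`. -/
def seq {R : Type*} [CommRing R] {d : ℕ} (c u : Fin d → R) : ℕ → R :=
  (LinearRecurrence.mk d c).mkSol u

theorem seq_sol {R : Type*} [CommRing R] {d : ℕ} (c u : Fin d → R) (n : ℕ) :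
    seq c u (n + d) = ∑ i, c i * seq c u (n + i) :=
  (LinearRecurrence.mk d c).is_sol_mkSol u n

theorem seq_init {R : Type*} [CommRing R] {d : ℕ} (c u : Fin d → R) (i : Fin d) :
    seq c u i = u i :=
  (LinearRecurrence.mk d c).mkSol_eq_init u i

theorem eq_seq {R : Type*} [CommRing R] {d : ℕ} (c u : Fin d → R) (w : ℕ → R)
    (h1 : ∀ n, w (n + d) = ∑ i, c i * w (n + i)) (h2 : ∀ i : Fin d, w i = u i) (n : ℕ) :
    w n = seq c u n :=
  (LinearRecurrence.mk d c).eq_mk_of_is_sol_of_eq_init (init := u) h1 h2 n

theorem map_seq {R S : Type*} [CommRing R] [CommRing S] (φ : R →+* S) {d : ℕ} (c u : Fin d → R)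
    (n : ℕ) : φ (seq c u n) = seq (fun i => φ (c i)) (fun i => φ (u i)) n := by
  apply eq_seq (fun i => φ (c i)) (fun i => φ (u i)) (fun n => φ (seq c u n))
  · intro n
    rw [seq_sol, map_sum]
    exact Finset.sum_congr rfl fun i _ => by rw [map_mul]
  · intro i
    rw [seq_init]

variable {K : Type*} [Field K]

/-- The shift operator. -/
def shift (K : Type*) [Field K] : (ℕ → K) →ₗ[K] (ℕ → K) where
  toFun w := fun n => w (n + 1)
  map_add' _ _ := rfl
  map_smul' _ _ := rfl

theorem shift_pow (k : ℕ) (w : ℕ → K) (n : ℕ) : ((shift K) ^ k) w n = w (n + k) := by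
  induction k generalizing w n with
  | zero => simp
  | succ k ih =>
    rw [pow_succ, Module.End.mul_apply, ih]
    show w (n + k + 1) = _
    rw [add_assoc]

theorem aeval_shift (f : K[X]) (w : ℕ → K) (n : ℕ) :
    (aeval (shift K) f) w n = ∑ i ∈ range (f.natDegree + 1), f.coeff i * w (n + i) := by
  rw [aeval_eq_sum_range]
  rw [LinearMap.sum_apply, Finset.sum_apply]
  refine Finset.sum_congr rfl fun i _ => ?_
  rw [LinearMap.smul_apply, Pi.smul_apply, shift_pow, smul_eq_mul]

/-- A sequence killed by `f` is killed by the multiples of `f`. -/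
theorem periodic_of_dvd (f : K[X]) (T : ℕ) (hf : f ∣ X ^ T - 1) (w : ℕ → K)
    (hw : (aeval (shift K) f) w = 0) (n : ℕ) : w (n + T) = w n := by
  obtain ⟨g, hg⟩ := hf
  have h1 : (aeval (shift K) (X ^ T - 1 : K[X])) w = 0 := by
    rw [hg, mul_comm, map_mul, Module.End.mul_apply, hw, map_zero]
  have h2 := congrFun h1 n
  rw [map_sub, map_pow, aeval_X, map_one, LinearMap.sub_apply, Pi.sub_apply, shift_pow,
    Module.End.one_apply, Pi.zero_apply, sub_eq_zero] at h2
  exact h2

/-- The polynomial with root set `S`. -/
noncomputable def poly (S : Finset K) : K[X] := ∏ a ∈ S, (X - C a)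

theorem poly_monic (S : Finset K) : (poly S).Monic := monic_prod_X_sub_C _ _

theorem poly_natDegree (S : Finset K) : (poly S).natDegree = S.card := by
  unfold poly
  rw [natDegree_prod_of_monic _ _ (fun a _ => monic_X_sub_C a)]
  simp

theorem poly_inj {S S' : Finset K} (h : poly S = poly S') : S = S' := by
  classical
  ext a
  have key : ∀ U : Finset K, a ∈ U ↔ (poly U).eval a = 0 := by
    intro U
    unfold poly
    rw [eval_prod, Finset.prod_eq_zero_iff]
    constructor
    · intro ha; exact ⟨a, ha, by simp⟩
    · rintro ⟨b, hb, hb2⟩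
      rw [eval_sub, eval_X, eval_C, sub_eq_zero] at hb2
      rw [hb2]; exact hb
  rw [key, key, h]

theorem poly_dvd (S : Finset K) (T : ℕ) (hS : ∀ a ∈ S, a ^ T = 1) : poly S ∣ X ^ T - 1 := by
  unfold poly
  apply Finset.prod_dvd_of_coprime
  · intro a _ b _ hab
    exact (Polynomial.pairwise_coprime_X_sub_C (s := (id : K → K)) Function.injective_id) hab
  · intro a ha
    rw [dvd_iff_isRoot]
    simp [hS a ha]

/-- The coefficients of the recurrence with characteristic roots `S`. -/
noncomputable def coef (d : ℕ) (S : Finset K) : Fin d → K := fun i => - (poly S).coeff i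

theorem coef_inj {d : ℕ} {S S' : Finset K} (hS : S.card = d) (hS' : S'.card = d)
    (h : coef d S = coef d S') : S = S' := by
  apply poly_inj
  ext i
  rcases lt_trichotomy i d with h1 | h1 | h1
  · have := congrFun h ⟨i, h1⟩
    unfold coef at this
    simpa using this
  · have e1 : (poly S).coeff i = 1 := by
      rw [h1, ← hS, ← poly_natDegree]; exact poly_monic S
    have e2 : (poly S').coeff i = 1 := by
      rw [h1, ← hS', ← poly_natDegree]; exact poly_monic S'
    rw [e1, e2]
  · rw [coeff_eq_zero_of_natDegree_lt (by rw [poly_natDegree]; omega),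
      coeff_eq_zero_of_natDegree_lt (by rw [poly_natDegree]; omega)]

theorem killed (d : ℕ) (S : Finset K) (hS : S.card = d) (w : ℕ → K) :
    (aeval (shift K) (poly S)) w = 0 ↔ ∀ n, w (n + d) = ∑ i, coef d S i * w (n + i) := by
  have hlead : (poly S).coeff d = 1 := by
    rw [← hS, ← poly_natDegree]; exact poly_monic S
  have key : ∀ n, (aeval (shift K) (poly S)) w n =
      w (n + d) - ∑ i, coef d S i * w (n + i) := by
    intro n
    rw [aeval_shift, poly_natDegree, hS, Finset.sum_range_succ, hlead, one_mul, add_comm,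
      sub_eq_add_neg]
    congr 1
    rw [← Finset.sum_neg_distrib, ← Fin.sum_univ_eq_sum_range
      (fun i => (poly S).coeff i * w (n + i))]
    refine Finset.sum_congr rfl fun i _ => ?_
    unfold coef
    ring
  constructor
  · intro h n
    have := key n
    rw [h, Pi.zero_apply] at this
    exact (sub_eq_zero.1 this.symm)
  · intro h
    funext n
    rw [key, h n, sub_self]; rfl

/-- Sequences whose characteristic roots satisfy `a ^ T = 1` are periodic mod `T`. -/
theorem seq_periodic (d T : ℕ) (S : Finset K) (hS : S.card = d)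
    (hST : ∀ a ∈ S, a ^ T = 1) (v : Fin d → K) (n : ℕ) :
    seq (coef d S) v (n + T) = seq (coef d S) v n := by
  apply periodic_of_dvd (poly S) T (poly_dvd S T hST)
  rw [killed d S hS]
  exact seq_sol _ _

theorem seq_mod (d T : ℕ) (S : Finset K) (hS : S.card = d)
    (hST : ∀ a ∈ S, a ^ T = 1) (v : Fin d → K) (n : ℕ) :
    seq (coef d S) v n = seq (coef d S) v (n % T) := by
  have h : ∀ k m, seq (coef d S) v (m + T * k) = seq (coef d S) v m := by
    intro k
    induction k with
    | zero => intro m; rfl
    | succ k ih =>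
      intro m
      rw [Nat.mul_succ, ← add_assoc, seq_periodic d T S hS hST, ih]
  conv_lhs => rw [← Nat.mod_add_div n T]
  exact h _ _

/-- The `n`-th term as a linear functional of the initial values. -/
noncomputable def ev {d : ℕ} (c : Fin d → K) (n : ℕ) : (Fin d → K) →ₗ[K] K where
  toFun v := seq c v n
  map_add' v v' := by
    symm
    apply eq_seq c (v + v') (fun n => seq c v n + seq c v' n)
    · intro n
      rw [seq_sol, seq_sol, ← Finset.sum_add_distrib]
      exact Finset.sum_congr rfl fun i _ => by ring
    · intro i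
      rw [seq_init, seq_init]; rfl
  map_smul' a v := by
    symm
    apply eq_seq c (a • v) (fun n => a • seq c v n)
    · intro n
      simp only [smul_eq_mul]
      rw [seq_sol, Finset.mul_sum]
      exact Finset.sum_congr rfl fun i _ => by ring
    · intro i
      simp only [smul_eq_mul]
      rw [seq_init]; rfl

/-- The functional is nonzero as soon as there is a nonzero characteristic root. -/
theorem ev_ne_zero (d : ℕ) (S : Finset K) (hS : S.card = d) (a : K) (ha : a ∈ S) (ha0 : a ≠ 0)
    (n : ℕ) : ∃ v, ev (coef d S) n v ≠ 0 := by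
  refine ⟨fun i => a ^ (i : ℕ), ?_⟩
  have h : a ^ n = seq (coef d S) (fun i : Fin d => a ^ (i : ℕ)) n := by
    apply eq_seq (coef d S) (fun i : Fin d => a ^ (i : ℕ)) (fun n => a ^ n)
    · rw [← killed d S hS]
      funext n
      have h1 : (poly S).eval a = 0 := by
        unfold poly
        rw [eval_prod, Finset.prod_eq_zero_iff]
        exact ⟨a, ha, by simp⟩
      rw [aeval_shift, Pi.zero_apply]
      have h2 : ∑ i ∈ range ((poly S).natDegree + 1), (poly S).coeff i * a ^ (n + i) =
          a ^ n * (poly S).eval a := by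
        rw [eval_eq_sum_range, Finset.mul_sum]
        exact Finset.sum_congr rfl fun i _ => by ring
      rw [h2, h1, mul_zero]
    · intro i; rfl
  show seq (coef d S) (fun i : Fin d => a ^ (i : ℕ)) n ≠ 0
  rw [← h]
  exact pow_ne_zero _ ha0

/-- A nonzero functional on `K^d` vanishes on exactly `|K|^(d-1)` vectors (written
multiplicatively). -/
theorem card_ker [Fintype K] [DecidableEq K] {d : ℕ} (l : (Fin d → K) →ₗ[K] K)
    (hl : ∃ v, l v ≠ 0) :
    (univ.filter (fun v => l v = 0)).card * Fintype.card K = Fintype.card K ^ d := by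
  classical
  obtain ⟨v₀, hv₀⟩ := hl
  have h1 : ((univ.filter (fun v : Fin d → K => l v = 0)) ×ˢ (univ : Finset K)).card =
      (univ : Finset (Fin d → K)).card := by
    apply Finset.card_bij (fun p _ => p.1 + (p.2 / l v₀) • v₀)
    · intro p _; exact mem_univ _
    · rintro ⟨v, t⟩ hp ⟨v', t'⟩ hp' h
      simp only [Finset.mem_product, Finset.mem_filter, mem_univ, true_and, and_true] at hp hp'
      simp only at h
      have h2 := congrArg l h
      rw [map_add, map_add, map_smul, map_smul, hp, hp', zero_add, zero_add, smul_eq_mul,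
        smul_eq_mul, div_mul_cancel₀ _ hv₀, div_mul_cancel₀ _ hv₀] at h2
      subst h2
      have h3 := add_right_cancel h
      rw [h3]
    · intro w _
      refine ⟨(w - (l w / l v₀) • v₀, l w), ?_, ?_⟩
      · simp only [Finset.mem_product, Finset.mem_filter, mem_univ, true_and, and_true]
        rw [map_sub, map_smul, smul_eq_mul, div_mul_cancel₀ _ hv₀, sub_self]
      · simp
  rw [Finset.card_product, Finset.card_univ, Finset.card_univ, Fintype.card_fun,
    Fintype.card_fin] at h1
  exact h1

open Classical in
/-- Initial values without zero term, for a recurrence with characteristic roots `S`. -/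
theorem card_bad [Fintype K] (d T : ℕ) (hT : 0 < T) (S : Finset K)
    (hS : S.card = d) (hne : S.Nonempty) (hST : ∀ a ∈ S, a ^ T = 1) :
    ((univ : Finset (Fin d → K)).filter (fun v : Fin d → K => ∃ n, seq (coef d S) v n = 0)).card * Fintype.card K ≤
      T * Fintype.card K ^ d := by
  obtain ⟨a, ha⟩ := hne
  have ha0 : a ≠ 0 := by
    rintro rfl
    have := hST 0 ha
    rw [zero_pow hT.ne'] at this
    exact zero_ne_one this
  have hsub : univ.filter (fun v : Fin d → K => ∃ n, seq (coef d S) v n = 0) ⊆
      (range T).biUnion (fun n => univ.filter (fun v => ev (coef d S) n v = 0)) := by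
    intro v hv
    rw [Finset.mem_filter] at hv
    obtain ⟨_, n, hn⟩ := hv
    rw [Finset.mem_biUnion]
    refine ⟨n % T, Finset.mem_range.2 (Nat.mod_lt _ hT), ?_⟩
    rw [Finset.mem_filter]
    refine ⟨mem_univ _, ?_⟩
    show seq (coef d S) v (n % T) = 0
    rw [← seq_mod d T S hS hST]; exact hn
  calc (univ.filter (fun v : Fin d → K => ∃ n, seq (coef d S) v n = 0)).card * Fintype.card K
      ≤ (∑ n ∈ range T, (univ.filter (fun v => ev (coef d S) n v = 0)).card) *
          Fintype.card K :=
        Nat.mul_le_mul_right _ ((Finset.card_le_card hsub).trans Finset.card_biUnion_le)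
    _ = ∑ n ∈ range T, Fintype.card K ^ d := by
        rw [Finset.sum_mul]
        refine Finset.sum_congr rfl fun n _ => ?_
        exact card_ker _ (ev_ne_zero d S hS a ha ha0 n)
    _ = T * Fintype.card K ^ d := by rw [Finset.sum_const, Finset.card_range, smul_eq_mul]

end Pool.Agent.H884R2.Sko
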