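import Pool.Agent.H692R2.USS.W1
import Pool.Agent.H692R2.USS.Code
import Pool.Agent.H692R2.USS.LRS
import Pool.Agent.H884R2.Sko.Local

set_option autoImplicit false

/-!
An errorless partial recursive algorithm for the Skolem problem, which halts if and only if there
is a zero or a prime which divides no term.  (Computability lemmas: Helper446, H692R2.)
-/

namespace Pool.Agent.H884R2.Sko
open Polynomial Finset Pool.Agent.H692R2.USS Pool.Agent.Helper446

/-- over a finite ring it is enough to test `Q ^ d + 1` terms -/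
theorem no_zero_bounded {R : Type*} [CommRing R] [Fintype R] {d : ℕ} (c : Fin d → R)
    (w : ℕ → R) (hw : ∀ n, w (n + d) = ∑ i : Fin d, c i * w (n + i))
    (h : ∀ n < Fintype.card R ^ d + 1, w n ≠ 0) (n : ℕ) : w n ≠ 0 := by
  classical
  obtain ⟨m, m', hne, heq⟩ := Fintype.exists_ne_map_eq_of_card_lt
    (fun (m : Fin (Fintype.card R ^ d + 1)) (i : Fin d) => w (m + i)) (by simp)
  wlog hlt : (m : ℕ) < m' generalizing m m'
  · exact this m' m hne.symm heq.symm
      (lt_of_le_of_ne (not_lt.1 hlt) (fun h => hne (Fin.ext h.symm)))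
  have huniq : ∀ k, w (m + k) = w (m' + k) := by
    intro k
    have e1 := eq_seq c (fun i : Fin d => w (m + i)) (fun k => w (m + k))
      (fun n => by
        have := hw (m + n)
        simp only [add_assoc] at this ⊢
        exact this) (fun _ => rfl) k
    have e2 := eq_seq c (fun i : Fin d => w (m + i)) (fun k => w (m' + k))
      (fun n => by
        have := hw (m' + n)
        simp only [add_assoc] at this ⊢
        exact this) (fun i => (congrFun heq i).symm) k
    rw [e1, e2]
  have key : ∀ n, ∃ n' < Fintype.card R ^ d + 1, w n = w n' := by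
    intro n
    induction n using Nat.strong_induction_on with
    | _ n ih =>
      by_cases hn : n < m'
      · exact ⟨n, lt_trans hn m'.2, rfl⟩
      · obtain ⟨n', hn', hw'⟩ := ih (n - (m' - m)) (by omega)
        refine ⟨n', hn', ?_⟩
        rw [← hw']
        have e := huniq (n - m')
        rw [show (m' : ℕ) + (n - m') = n by omega] at e
        rw [← e]
        congr 1
        omega
  obtain ⟨n', hn', e⟩ := key n
  rw [e]
  exact h n' hn'

/-- the coefficient list used by `run` -/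
def Fq (c : List (ℕ × ℕ)) : List (ℕ × ℕ) :=
  (List.range c.length).map (fun i => zn (c.getD (c.length - 1 - i) (0, 0)))

theorem Fq_length (c : List (ℕ × ℕ)) : (Fq c).length = c.length := by simp [Fq]

theorem Fq_getD {c : List (ℕ × ℕ)} {i : ℕ} (h : i < c.length) :
    (Fq c).getD i (0, 0) = zn (c.getD (c.length - 1 - i) (0, 0)) := by
  unfold Fq
  rw [List.getD_eq_getElem?_getD, List.getElem?_map, List.getElem?_range h]
  rfl

theorem getLast_iff' (c : List (ℕ × ℕ)) :
    (∃ q ∈ c.getLast?, (q.1 : ℤ) ≠ (q.2 : ℤ)) → 1 ≤ c.length := by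
  rcases c.eq_nil_or_concat with rfl | ⟨l, x, rfl⟩
  · simp
  · simp

theorem isLRS_run' {p : List (ℕ × ℕ) × List (ℕ × ℕ)} {u : ℕ → ℤ} (h : IsLRS p u) (n : ℕ) :
    iv (run (Fq p.1) p.2 n) = u n := by
  obtain ⟨h1, h2, h3, h4⟩ := h
  have h5 := getLast_iff' p.1 h2
  refine run_eq (by omega) (by rw [Fq_length, h1]) ?_ h3 n
  rw [ann_PG]
  intro n
  rw [Fq_length, h4 n, ← Finset.sum_neg_distrib, ← Finset.sum_range_reflect]
  refine Finset.sum_congr rfl fun i hi => ?_
  rw [Finset.mem_range] at hi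
  rw [Fq_getD hi, iv_zn]
  rw [show n + p.1.length - 1 - (p.1.length - 1 - i) = n + i by omega]
  simp only [iv]
  ring

@[fun_prop] theorem cFq {α : Type*} [Primcodable α] {c : α → List (ℕ × ℕ)} (hc : Computable c) :
    Computable fun x => Fq (c x) := by
  have h : Computable fun x => (List.range (c x).length).foldl
      (fun (s : List (ℕ × ℕ)) i => s ++ [zn ((c x).getD ((c x).length - 1 - i) (0, 0))]) [] := by
    have hr : Computable fun x => List.range (c x).length :=
      Primrec.list_range.to_comp.comp (by fun_prop)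
    refine RE.list_foldl (h := fun x (y : List (ℕ × ℕ) × ℕ) =>
      y.1 ++ [zn ((c x).getD ((c x).length - 1 - y.2) (0, 0))]) hr (Computable.const []) ?_
    show Computable fun z : α × (List (ℕ × ℕ) × ℕ) =>
      z.2.1 ++ [zn ((c z.1).getD ((c z.1).length - 1 - z.2.2) (0, 0))]
    fun_prop
  refine h.of_eq fun x => ?_
  unfold Fq
  have key : ∀ (f : ℕ → ℕ × ℕ) (l : List ℕ) (s : List (ℕ × ℕ)),
      l.foldl (fun s i => s ++ [f i]) s = s ++ l.map f := by
    intro f l
    induction l with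
    | nil => intro s; simp
    | cons a l ih => intro s; rw [List.foldl_cons, ih, List.map_cons, List.append_assoc]; rfl
  exact (key (fun i => zn ((c x).getD ((c x).length - 1 - i) (0, 0))) _ []).trans
    (List.nil_append _)

/-- the search relation -/
def Rel (p : List (ℕ × ℕ) × List (ℕ × ℕ)) (b : Bool) : Prop :=
  (b = true ∧ ∃ n, (run (Fq p.1) p.2 n).1 = (run (Fq p.1) p.2 n).2) ∨
  (b = false ∧ ∃ q : ℕ, q.Prime ∧ ∀ n < q ^ p.2.length + 1,
    (run (Fq p.1) p.2 n).1 % q ≠ (run (Fq p.1) p.2 n).2 % q)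

theorem re_Rel : REPred fun x : (List (ℕ × ℕ) × List (ℕ × ℕ)) × Bool => Rel x.1 x.2 := by
  unfold Rel
  refine RE.or (RE.and (RE.eq (by fun_prop) (by fun_prop)) ?_)
    (RE.and (RE.eq (by fun_prop) (by fun_prop)) ?_)
  · refine RE.ex (p := fun (x : (List (ℕ × ℕ) × List (ℕ × ℕ)) × Bool) (n : ℕ) =>
      (run (Fq x.1.1) x.1.2 n).1 = (run (Fq x.1.1) x.1.2 n).2) ?_
    exact RE.eq (by fun_prop) (by fun_prop)
  · refine RE.ex (p := fun (x : (List (ℕ × ℕ) × List (ℕ × ℕ)) × Bool) (q : ℕ) =>
      q.Prime ∧ ∀ n < q ^ x.1.2.length + 1,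
        (run (Fq x.1.1) x.1.2 n).1 % q ≠ (run (Fq x.1.1) x.1.2 n).2 % q) ?_
    refine RE.and (cp_prime (by fun_prop)).to_re ?_
    refine RE.all_lt (p := fun (x : ((List (ℕ × ℕ) × List (ℕ × ℕ)) × Bool) × ℕ) (n : ℕ) =>
      (run (Fq x.1.1.1) x.1.1.2 n).1 % x.2 ≠ (run (Fq x.1.1.1) x.1.1.2 n).2 % x.2) ?_
      (by fun_prop)
    exact RE.ne (by fun_prop) (by fun_prop)

theorem mod_ne_iff (z : ℕ × ℕ) (q : ℕ) : z.1 % q ≠ z.2 % q ↔ ¬ (q : ℤ) ∣ iv z := by
  unfold iv
  rw [not_iff_not]
  constructor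
  · intro h
    exact (Nat.modEq_iff_dvd.1 (show z.2 ≡ z.1 [MOD q] from h.symm))
  · intro h
    exact (Nat.modEq_iff_dvd.2 h).symm

theorem rel_false_iff {p : List (ℕ × ℕ) × List (ℕ × ℕ)} {u : ℕ → ℤ} (h : IsLRS p u) :
    Rel p false ↔ ∃ q : ℕ, q.Prime ∧ ∀ n, ¬ (q : ℤ) ∣ u n := by
  unfold Rel
  simp only [Bool.false_eq_true, false_and, true_and, false_or]
  refine exists_congr fun q => and_congr_right fun hq => ?_
  have hrun := isLRS_run' h
  constructor
  · intro h' n
    have : Fact q.Prime := ⟨hq⟩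
    have hd : p.1.length = p.2.length := h.1
    have key := no_zero_bounded (R := ZMod q) (d := p.1.length)
      (fun i => (((iv (p.1.getD (p.1.length - 1 - i) (0, 0))) : ℤ) : ZMod q))
      (fun n => (u n : ZMod q)) ?_ ?_ n
    · intro hdvd
      exact key ((ZMod.intCast_zmod_eq_zero_iff_dvd _ _).2 hdvd)
    · intro n
      rw [h.2.2.2 n, ← Finset.sum_range_reflect]
      push_cast
      rw [Fin.sum_univ_eq_sum_range (fun i => ((iv (p.1.getD (p.1.length - 1 - i) (0, 0)) : ℤ) :
        ZMod q) * ((u (n + i) : ℤ) : ZMod q)) p.1.length]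
      refine Finset.sum_congr rfl fun i hi => ?_
      rw [Finset.mem_range] at hi
      rw [show n + p.1.length - 1 - (p.1.length - 1 - i) = n + i by omega]
      simp [iv]
    · intro n hn
      rw [ZMod.card, hd] at hn
      have h1 := (mod_ne_iff _ _).1 (h' n hn)
      rw [hrun] at h1
      rw [Ne, ZMod.intCast_zmod_eq_zero_iff_dvd]
      exact h1
  · intro h' n _
    rw [mod_ne_iff, hrun]
    exact h' n

theorem rel_true_iff {p : List (ℕ × ℕ) × List (ℕ × ℕ)} {u : ℕ → ℤ} (h : IsLRS p u) :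
    Rel p true ↔ ∃ n, u n = 0 := by
  unfold Rel
  simp only [Bool.true_eq_false, false_and, true_and, or_false]
  refine exists_congr fun n => ?_
  rw [← isLRS_run' h n]
  unfold iv
  omega

/-- The algorithm. -/
theorem algo : ∃ A : List (ℕ × ℕ) × List (ℕ × ℕ) →. Bool, Partrec A ∧
    ∀ p u, IsLRS p u → (∀ b ∈ A p, (b = true ↔ ∃ n, u n = 0)) ∧
      ((A p).Dom ↔ (∃ n, u n = 0) ∨ ∃ q : ℕ, q.Prime ∧ ∀ n, ¬ (q : ℤ) ∣ u n) := by
  obtain ⟨A, hA, hdom, hs⟩ := RE.uniformize re_Rel
  refine ⟨A, hA, fun p u hu => ⟨?_, ?_⟩⟩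
  · intro b hb
    have h1 := hs p b hb
    cases b with
    | true => simpa using (rel_true_iff hu).1 h1
    | false =>
      obtain ⟨q, _, hq⟩ := (rel_false_iff hu).1 h1
      simp only [Bool.false_eq_true, false_iff, not_exists]
      intro n hn
      apply hq n
      rw [hn]
      exact dvd_zero _
  · rw [hdom]
    constructor
    · rintro ⟨b, hb⟩
      cases b with
      | true => exact Or.inl ((rel_true_iff hu).1 hb)
      | false => exact Or.inr ((rel_false_iff hu).1 hb)
    · rintro (h | h)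
      · exact ⟨true, (rel_true_iff hu).2 h⟩
      · exact ⟨false, (rel_false_iff hu).2 h⟩

end Pool.Agent.H884R2.Sko
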