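import Pool.Agent.H884R2.Sko.Sieve

set_option autoImplicit false

namespace Pool.Agent.H884R2.Sko
open Finset

/-- The proportion of good sequences modulo a prime. -/
noncomputable def kappa (d : ℕ) : ℝ := 1 / (2 * 4 ^ d * d.factorial)

theorem kappa_pos (d : ℕ) : 0 < kappa d := by
  unfold kappa; positivity

theorem kappa_le (d : ℕ) : kappa d ≤ 1 / 2 := by
  unfold kappa
  apply one_div_le_one_div_of_le (by norm_num)
  have h1 : (1 : ℝ) ≤ 4 ^ d := one_le_pow₀ (by norm_num)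
  have h2 : (1 : ℝ) ≤ d.factorial := by exact_mod_cast Nat.one_le_iff_ne_zero.2 d.factorial_ne_zero
  nlinarith

open Classical in
theorem card_bad_le (p : ℕ) (hp : p.Prime) (d : ℕ) (hd : 1 ≤ d) (hp4 : 4 * d ≤ p)
    [NeZero p] :
    (((univ : Finset ((Fin d → ZMod p) × (Fin d → ZMod p))).filter
      (fun x => ¬ NoZero x)).card : ℝ) ≤ (1 - kappa d) * (p : ℝ) ^ (2 * d) := by
  haveI : Fact p.Prime := ⟨hp⟩
  have h1 := card_good p d hd hp4
  have h2 : ((univ : Finset ((Fin d → ZMod p) × (Fin d → ZMod p))).filter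
      (fun x => NoZero x)).card + ((univ : Finset ((Fin d → ZMod p) × (Fin d → ZMod p))).filter
      (fun x => ¬ NoZero x)).card = p ^ (2 * d) := by
    rw [Finset.card_filter_add_card_filter_not, Finset.card_univ, Fintype.card_prod,
      Fintype.card_fun, Fintype.card_fin, ZMod.card]
    ring
  set g := ((univ : Finset ((Fin d → ZMod p) × (Fin d → ZMod p))).filter
      (fun x => NoZero x)).card with hg
  set b := ((univ : Finset ((Fin d → ZMod p) × (Fin d → ZMod p))).filter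
      (fun x => ¬ NoZero x)).card with hb
  have h3 : ((p : ℝ) ^ (2 * d)) ≤ 2 * 4 ^ d * d.factorial * g := by exact_mod_cast h1
  have h4 : (g : ℝ) + b = (p : ℝ) ^ (2 * d) := by exact_mod_cast h2
  have h5 : kappa d * (p : ℝ) ^ (2 * d) ≤ g := by
    unfold kappa
    rw [one_div, inv_mul_le_iff₀ (by positivity)]
    exact h3
  linarith

/-- Main estimate. `P` is a finite set of primes `≥ 4 d` whose product is at most `H`. -/
theorem main_count {d : ℕ} (hd : 1 ≤ d) (P : Finset ℕ) (hP : ∀ p ∈ P, p.Prime ∧ 4 * d ≤ p) (H : ℕ)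
    (hH : ∏ p ∈ P, p ≤ H) (B : Finset ((Fin d → ℤ) × (Fin d → ℤ)))
    (hB : ∀ x ∈ B, (∀ i, |x.1 i| ≤ (H : ℤ)) ∧ (∀ i, |x.2 i| ≤ (H : ℤ)) ∧
      ∀ p ∈ P, ∃ n, (p : ℤ) ∣ seq x.1 x.2 n) :
    (B.card : ℝ) ≤ (3 * H) ^ (2 * d) * (1 - kappa d) ^ P.card := by
  classical
  set Ω : ∀ p : ℕ, Finset ((Fin d → ZMod p) × (Fin d → ZMod p)) := fun p =>
    if h : p = 0 then ∅ else
      haveI : NeZero p := ⟨h⟩
      (univ : Finset ((Fin d → ZMod p) × (Fin d → ZMod p))).filter (fun x => ¬ NoZero x) with hΩ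
  have hmem : ∀ x ∈ B, ∀ p ∈ P, red p x ∈ Ω p := by
    intro x hx p hp
    have hp0 : p ≠ 0 := (hP p hp).1.ne_zero
    haveI : NeZero p := ⟨hp0⟩
    simp only [hΩ, dif_neg hp0]
    rw [Finset.mem_filter]
    refine ⟨mem_univ _, ?_⟩
    intro hno
    obtain ⟨n, hn⟩ := (hB x hx).2.2 p hp
    apply hno n
    have h1 := map_seq (Int.castRingHom (ZMod p)) x.1 x.2 n
    have h2 : ((seq x.1 x.2 n : ℤ) : ZMod p) = 0 := by
      rw [ZMod.intCast_zmod_eq_zero_iff_dvd]; exact hn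
    rw [eq_intCast, h2] at h1
    exact h1.symm
  have h1 := sieve_count P (fun p hp => (hP p hp).1) H Ω B
    (fun x hx => ⟨(hB x hx).1, (hB x hx).2.1, hmem x hx⟩)
  set N : ℕ := ∏ p ∈ P, p with hN
  have hNpos : 0 < N := Finset.prod_pos fun p hp => (hP p hp).1.pos
  have hΩcard : ∀ p ∈ P, ((Ω p).card : ℝ) ≤ (1 - kappa d) * (p : ℝ) ^ (2 * d) := by
    intro p hp
    have hp0 : p ≠ 0 := (hP p hp).1.ne_zero
    haveI : NeZero p := ⟨hp0⟩
    simp only [hΩ, dif_neg hp0]
    exact card_bad_le p (hP p hp).1 d hd (hP p hp).2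
  have hk1 : 0 ≤ 1 - kappa d := by have := kappa_le d; linarith
  have h2 : ((∏ p ∈ P, (Ω p).card : ℕ) : ℝ) ≤ (1 - kappa d) ^ P.card * (N : ℝ) ^ (2 * d) := by
    push_cast
    calc ∏ p ∈ P, ((Ω p).card : ℝ) ≤ ∏ p ∈ P, ((1 - kappa d) * (p : ℝ) ^ (2 * d)) :=
          Finset.prod_le_prod (fun p _ => by positivity) hΩcard
      _ = (1 - kappa d) ^ P.card * (N : ℝ) ^ (2 * d) := by
          rw [Finset.prod_mul_distrib, Finset.prod_const, Finset.prod_pow, hN]
          push_cast; rfl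
  have h3 : (((2 * H / N + 1 : ℕ)) : ℝ) * N ≤ 3 * H := by
    have h4 : (2 * H / N + 1) * N ≤ 3 * H := by
      have := Nat.div_mul_le_self (2 * H) N
      rw [add_mul, one_mul]
      omega
    exact_mod_cast h4
  calc (B.card : ℝ) ≤ (((2 * H / N + 1) ^ (2 * d) * ∏ p ∈ P, (Ω p).card : ℕ) : ℝ) := by
        exact_mod_cast h1
    _ = (((2 * H / N + 1 : ℕ)) : ℝ) ^ (2 * d) * ((∏ p ∈ P, (Ω p).card : ℕ) : ℝ) := by
        push_cast; rfl
    _ ≤ (((2 * H / N + 1 : ℕ)) : ℝ) ^ (2 * d) * ((1 - kappa d) ^ P.card * (N : ℝ) ^ (2 * d)) :=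
        mul_le_mul_of_nonneg_left h2 (by positivity)
    _ = ((((2 * H / N + 1 : ℕ)) : ℝ) * N) ^ (2 * d) * (1 - kappa d) ^ P.card := by
        rw [mul_pow]; ring
    _ ≤ (3 * H) ^ (2 * d) * (1 - kappa d) ^ P.card := by
        apply mul_le_mul_of_nonneg_right _ (pow_nonneg hk1 _)
        exact pow_le_pow_left₀ (by positivity) h3 _

/-- The number of inputs bounded by `H` for which every prime `p ≤ log_4 H` divides some term. -/
theorem main (d : ℕ) (hd : 1 ≤ d) (H : ℕ) (hH : 1 ≤ H) (B : Finset ((Fin d → ℤ) × (Fin d → ℤ)))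
    (hB : ∀ x ∈ B, (∀ i, |x.1 i| ≤ (H : ℤ)) ∧ (∀ i, |x.2 i| ≤ (H : ℤ)) ∧
      ∀ p : ℕ, p.Prime → p ≤ Nat.log 4 H → ∃ n, (p : ℤ) ∣ seq x.1 x.2 n) :
    (B.card : ℝ) ≤ (3 * H) ^ (2 * d) * 2 ^ (4 * d) *
      (1 - kappa d) ^ Nat.primeCounting (Nat.log 4 H) := by
  classical
  set y := Nat.log 4 H with hy
  set P : Finset ℕ := (range (y + 1)).filter (fun p => p.Prime ∧ 4 * d ≤ p) with hPdef
  have hk := kappa_le d
  have hkp := kappa_pos d
  have hprod : ∏ p ∈ P, p ≤ H := by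
    have h1 : ∏ p ∈ P, p ≤ primorial y := by
      unfold primorial
      apply Finset.prod_le_prod_of_subset_of_one_le'
      · intro p hp
        rw [hPdef, Finset.mem_filter] at hp
        rw [Finset.mem_filter]
        exact ⟨hp.1, hp.2.1⟩
      · intro p hp _
        rw [Finset.mem_filter] at hp
        exact hp.2.one_le
    exact h1.trans ((primorial_le_four_pow y).trans (Nat.pow_log_le_self 4 (by omega)))
  have h1 := main_count hd P (fun p hp => by
    rw [hPdef, Finset.mem_filter] at hp; exact hp.2) H hprod B (fun x hx =>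
    ⟨(hB x hx).1, (hB x hx).2.1, fun p hp => by
      rw [hPdef, Finset.mem_filter, Finset.mem_range] at hp
      exact (hB x hx).2.2 p hp.2.1 (by omega)⟩)
  have hcard : Nat.primeCounting y ≤ P.card + 4 * d := by
    rw [Nat.primeCounting, Nat.primeCounting', Nat.count_eq_card_filter_range]
    have h2 : (range (y + 1)).filter Nat.Prime ⊆ P ∪ range (4 * d) := by
      intro p hp
      rw [Finset.mem_filter] at hp
      rw [Finset.mem_union, Finset.mem_range]
      by_cases h : 4 * d ≤ p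
      · left; rw [hPdef, Finset.mem_filter]; exact ⟨hp.1, hp.2, h⟩
      · right; omega
    refine (Finset.card_le_card h2).trans ?_
    refine (Finset.card_union_le _ _).trans ?_
    rw [Finset.card_range]
  have h3 : (1 - kappa d) ^ P.card ≤ 2 ^ (4 * d) * (1 - kappa d) ^ Nat.primeCounting y := by
    have h4 : (1 - kappa d) ^ (P.card + 4 * d) ≤ (1 - kappa d) ^ Nat.primeCounting y :=
      pow_le_pow_of_le_one (by linarith) (by linarith) hcard
    have h5 : (1 : ℝ) ≤ 2 ^ (4 * d) * (1 - kappa d) ^ (4 * d) := by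
      rw [← mul_pow]
      apply one_le_pow₀
      linarith
    calc (1 - kappa d) ^ P.card = (1 - kappa d) ^ P.card * 1 := by ring
      _ ≤ (1 - kappa d) ^ P.card * (2 ^ (4 * d) * (1 - kappa d) ^ (4 * d)) :=
          mul_le_mul_of_nonneg_left h5 (pow_nonneg (by linarith) _)
      _ = 2 ^ (4 * d) * (1 - kappa d) ^ (P.card + 4 * d) := by rw [pow_add]; ring
      _ ≤ _ := mul_le_mul_of_nonneg_left h4 (by positivity)
  calc (B.card : ℝ) ≤ (3 * H) ^ (2 * d) * (1 - kappa d) ^ P.card := h1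
    _ ≤ (3 * H) ^ (2 * d) * (2 ^ (4 * d) * (1 - kappa d) ^ Nat.primeCounting y) :=
        mul_le_mul_of_nonneg_left h3 (by positivity)
    _ = _ := by ring

end Pool.Agent.H884R2.Sko
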