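import Pool.Agent.H884R2.Sko.Fiber
import Pool.Agent.H884R2.Sko.Final
import Pool.Agent.H884R2.Sko.Algo

set_option autoImplicit false

namespace Pool.Agent.H884R2.Sko
open Polynomial Finset Pool.Agent.H692R2.USS

/-- integer vectors at distance at most `H` from `b` (maximum norm) -/
noncomputable def box {d : ℕ} (b : Fin d → ℤ) (H : ℕ) : Finset (Fin d → ℤ) :=
  Fintype.piFinset fun i => Finset.Icc (b i - H) (b i + H)

theorem mem_box {d : ℕ} {b : Fin d → ℤ} {H : ℕ} {a : Fin d → ℤ} :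
    a ∈ box b H ↔ ∀ i, |a i - b i| ≤ H := by
  unfold box
  rw [Fintype.mem_piFinset]
  refine forall_congr' fun i => ?_
  rw [Finset.mem_Icc, abs_le]
  constructor <;> rintro ⟨h1, h2⟩ <;> constructor <;> linarith

theorem card_box {d : ℕ} (b : Fin d → ℤ) (H : ℕ) : (box b H).card = (2 * H + 1) ^ d := by
  unfold box
  rw [Fintype.card_piFinset]
  have : ∀ i : Fin d, (Finset.Icc (b i - H) (b i + H)).card = 2 * H + 1 := by
    intro i
    rw [Int.card_Icc]
    omega
  simp only [this, Finset.prod_const, Finset.card_univ, Fintype.card_fin]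

theorem box_count {d : ℕ} (p : ℕ) (hp : 0 < p) (H : ℕ) (b : Fin d → ℤ)
    (Ω : Finset (Fin d → ZMod p)) (A : Finset (Fin d → ℤ))
    (hA : ∀ a ∈ A, (∀ i, |a i - b i| ≤ (H : ℤ)) ∧ (fun i => (a i : ZMod p)) ∈ Ω) :
    A.card ≤ (2 * H / p + 1) ^ d * Ω.card := by
  classical
  have h1 : A.card ≤ (2 * H / p + 1) ^ d * (A.image fun a => fun i => (a i : ZMod p)).card := by
    apply Finset.card_le_mul_card_image
    intro r hr
    rw [Finset.mem_image] at hr
    obtain ⟨a₀, ha₀, hr⟩ := hr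
    have hsub : A.filter (fun a => (fun i => (a i : ZMod p)) = r) ⊆
        Fintype.piFinset fun i => (Finset.Icc (b i - H) (b i + H)).filter
          (fun w => (p : ℤ) ∣ w - a₀ i) := by
      intro a ha
      rw [Finset.mem_filter] at ha
      obtain ⟨haA, har⟩ := ha
      rw [Fintype.mem_piFinset]
      intro i
      have h2 := (hA a haA).1 i
      rw [abs_le] at h2
      rw [Finset.mem_filter, Finset.mem_Icc]
      refine ⟨⟨by linarith, by linarith⟩, ?_⟩
      have h3 := congrFun (har.trans hr.symm) i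
      rw [← sub_eq_zero, ← Int.cast_sub, ZMod.intCast_zmod_eq_zero_iff_dvd] at h3
      exact h3
    refine (Finset.card_le_card hsub).trans ?_
    rw [Fintype.card_piFinset]
    have hone : ∀ i : Fin d, ((Finset.Icc (b i - H) (b i + H)).filter
        (fun w => (p : ℤ) ∣ w - a₀ i)).card ≤ 2 * H / p + 1 := by
      intro i
      rw [← Finset.card_image_of_injective _ (sub_left_injective (b := b i))]
      apply card_class H p hp (a₀ i - b i)
      intro w hw
      rw [Finset.mem_image] at hw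
      obtain ⟨v, hv, rfl⟩ := hw
      rw [Finset.mem_filter, Finset.mem_Icc] at hv
      refine ⟨abs_le.2 ⟨by linarith [hv.1.1], by linarith [hv.1.2]⟩, ?_⟩
      have e : v - b i - (a₀ i - b i) = v - a₀ i := by ring
      rw [e]
      exact hv.2
    calc _ ≤ ∏ _i : Fin d, (2 * H / p + 1) := Finset.prod_le_prod' fun i _ => hone i
      _ = _ := by simp
  refine h1.trans (Nat.mul_le_mul_left _ (Finset.card_le_card ?_))
  intro r hr
  rw [Finset.mem_image] at hr
  obtain ⟨a, ha, rfl⟩ := hr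
  exact (hA a ha).2

/-- `u` is the sequence with coefficients `c_1, ..., c_d` and initial values `a`:
`u_{n+d} = ∑ c_i u_{n+d-i}` (here `c_i` is `c (i-1)`). -/
def IsSeq {d : ℕ} (c a : Fin d → ℤ) (u : ℕ → ℤ) : Prop :=
  (∀ i : Fin d, u i = a i) ∧ ∀ n, u (n + d) = ∑ i : Fin d, c i * u (n + d - 1 - i)

/-- the characteristic polynomial `X^d - ∑ c_i X^(d-i)` -/
noncomputable def charPoly {d : ℕ} (c : Fin d → ℤ) : ℤ[X] :=
  X ^ d - ∑ i : Fin d, C (c i) * X ^ (d - 1 - (i : ℕ))

/-- the code of an integer vector: integers are coded as differences of two naturals -/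
def code {d : ℕ} (x : Fin d → ℤ) : List (ℕ × ℕ) :=
  List.ofFn fun i => ((x i).toNat, (-(x i)).toNat)

theorem sum_rev {M : Type*} [AddCommMonoid M] {d : ℕ} (f : Fin d → M) :
    ∑ i, f (Fin.rev i) = ∑ i, f i := Equiv.sum_comp Fin.revPerm f

theorem charPoly_eq {d : ℕ} (c : Fin d → ℤ) : charPoly c = chi (fun i => c (Fin.rev i)) := by
  unfold charPoly chi
  congr 1
  rw [← sum_rev]
  refine Finset.sum_congr rfl fun i _ => ?_
  rw [Fin.val_rev]
  congr 2
  omega

theorem isSeq_iff {d : ℕ} (c a : Fin d → ℤ) (u : ℕ → ℤ) :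
    IsSeq c a u ↔ ∀ n, u n = seq (fun i => c (Fin.rev i)) a n := by
  have hrec : ∀ (w : ℕ → ℤ) (n : ℕ), ∑ i : Fin d, c i * w (n + d - 1 - i) =
      ∑ i : Fin d, c (Fin.rev i) * w (n + i) := by
    intro w n
    rw [← sum_rev]
    refine Finset.sum_congr rfl fun i _ => ?_
    rw [Fin.val_rev]
    congr 2
    omega
  constructor
  · rintro ⟨h1, h2⟩ n
    exact eq_seq _ a u (fun n => by rw [h2, hrec]) h1 n
  · intro h
    have hu : u = seq (fun i => c (Fin.rev i)) a := funext h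
    subst hu
    refine ⟨fun i => seq_init _ _ i, fun n => ?_⟩
    rw [hrec]
    exact seq_sol _ _ n

theorem exists_isSeq {d : ℕ} (c a : Fin d → ℤ) : ∃ u, IsSeq c a u :=
  ⟨_, (isSeq_iff c a _).2 fun _ => rfl⟩

theorem code_getD {d : ℕ} (x : Fin d → ℤ) (i : ℕ) (h : i < d) :
    (code x).getD i (0, 0) = ((x ⟨i, h⟩).toNat, (-(x ⟨i, h⟩)).toNat) := by
  unfold code
  rw [List.getD_eq_getElem?_getD, List.getElem?_ofFn]
  simp [h]

theorem code_val (x : ℤ) : ((x.toNat : ℤ)) - ((-x).toNat : ℤ) = x := by omega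

theorem isLRS_code {d : ℕ} (hd : 1 ≤ d) (c a : Fin d → ℤ) (hc : c ⟨d - 1, by omega⟩ ≠ 0)
    {u : ℕ → ℤ} (hu : IsSeq c a u) : IsLRS (code c, code a) u := by
  have hl1 : (code c).length = d := by simp [code]
  have hl2 : (code a).length = d := by simp [code]
  refine ⟨by simp only [hl1, hl2], ?_, ?_, ?_⟩
  · refine ⟨(code c).getD (d - 1) (0, 0), ?_, ?_⟩
    · show (code c).getD (d - 1) (0, 0) ∈ (code c).getLast?
      rw [Option.mem_def, List.getLast?_eq_getElem?, List.getD_eq_getElem?_getD, hl1]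
      rw [List.getElem?_eq_getElem (by omega)]
      rfl
    · rw [code_getD c (d - 1) (by omega)]
      simp only
      intro h
      apply hc
      have := code_val (c ⟨d - 1, by omega⟩)
      omega
  · intro i hi
    simp only at hi ⊢
    rw [hl2] at hi
    rw [code_getD a i hi]
    simp only
    rw [code_val]
    exact hu.1 ⟨i, hi⟩
  · intro n
    simp only [hl1]
    rw [hu.2 n, ← Fin.sum_univ_eq_sum_range (fun i => ((((code c).getD i (0, 0)).1 : ℤ) -
      (((code c).getD i (0, 0)).2 : ℤ)) * u (n + d - 1 - i))]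
    refine Finset.sum_congr rfl fun i _ => ?_
    rw [code_getD c i i.2]
    simp only
    rw [code_val]

open Classical in
/-- For every recurrence with squarefree characteristic polynomial there is a prime which divides
no term, for all but a small proportion of the initial values. -/
theorem fiber_box {d : ℕ} (hd : 1 ≤ d) (c : Fin d → ℤ) (hc : c ⟨d - 1, by omega⟩ ≠ 0)
    (hsq : Squarefree ((charPoly c).map (Int.castRingHom ℚ))) (ε : ℝ) (hε : 0 < ε) (N : ℕ) :
    ∃ p : ℕ, p.Prime ∧ N < p ∧ ∀ H : ℕ, p ≤ H → ∀ b : Fin d → ℤ,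
      (((box b H).filter (fun a => ∃ u, IsSeq c a u ∧ ∃ n, (p : ℤ) ∣ u n)).card : ℝ) ≤
        ε * (2 * H + 1) ^ d := by
  obtain ⟨l, hl⟩ := exists_nat_gt ((3 / 2) ^ d / ε)
  have hl0 : 0 < l := by
    have h1 : (0 : ℝ) < (3 / 2) ^ d / ε := by positivity
    exact_mod_cast h1.trans hl
  rw [charPoly_eq] at hsq
  have h0 : (chi (fun i => c (Fin.rev i))).coeff 0 ≠ 0 := by
    have := chi_coeff (fun i => c (Fin.rev i)) ⟨0, by omega⟩
    simp only at this
    rw [this, neg_ne_zero]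
    have e : Fin.rev (⟨0, by omega⟩ : Fin d) = ⟨d - 1, by omega⟩ := by
      apply Fin.ext
      rw [Fin.val_rev]
    rw [e]
    exact hc
  obtain ⟨p, hp, hpN, hbad⟩ := fiber_prime hd _ h0 hsq l hl0 N
  refine ⟨p, hp.out, hpN, fun H hH b => ?_⟩
  set Ω := (univ : Finset (Fin d → ZMod p)).filter
        (fun v => ∃ n, seq (fun i => (c (Fin.rev i) : ZMod p)) v n = 0) with hΩ
  have hppos : 0 < p := hp.out.pos
  have h1 := box_count p hppos H b Ω
    ((box b H).filter (fun a => ∃ u, IsSeq c a u ∧ ∃ n, (p : ℤ) ∣ u n)) (by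
      intro a ha
      rw [Finset.mem_filter, mem_box] at ha
      obtain ⟨ha1, u, hu, n, hn⟩ := ha
      refine ⟨ha1, ?_⟩
      rw [hΩ, Finset.mem_filter]
      refine ⟨mem_univ _, n, ?_⟩
      rw [(isSeq_iff c a u).1 hu n] at hn
      have h2 := map_seq (Int.castRingHom (ZMod p)) (fun i => c (Fin.rev i)) a n
      rw [eq_intCast, (ZMod.intCast_zmod_eq_zero_iff_dvd _ _).2 hn] at h2
      exact h2.symm)
  set M := ((box b H).filter (fun a => ∃ u, IsSeq c a u ∧ ∃ n, (p : ℤ) ∣ u n)).card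
  have h2 : l * M ≤ (3 * H) ^ d := by
    calc l * M ≤ l * ((2 * H / p + 1) ^ d * Ω.card) := Nat.mul_le_mul_left _ h1
      _ = (2 * H / p + 1) ^ d * (l * Ω.card) := by ring
      _ ≤ (2 * H / p + 1) ^ d * p ^ d := Nat.mul_le_mul_left _ hbad
      _ = ((2 * H / p + 1) * p) ^ d := by rw [mul_pow]
      _ ≤ (3 * H) ^ d := by
          apply Nat.pow_le_pow_left
          have := Nat.div_mul_le_self (2 * H) p
          rw [add_mul, one_mul]
          omega
  have h3 : (l : ℝ) * M ≤ (3 * H) ^ d := by exact_mod_cast h2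
  have h4 : (3 * (H : ℝ)) ^ d ≤ (3 / 2) ^ d * (2 * H + 1) ^ d := by
    rw [← mul_pow]
    apply pow_le_pow_left₀ (by positivity)
    linarith
  have hl' : (0 : ℝ) < l := by exact_mod_cast hl0
  have h5 : (3 / 2 : ℝ) ^ d ≤ ε * l := by
    rw [div_lt_iff₀ hε] at hl
    linarith
  have h6 : (0 : ℝ) ≤ (2 * (H : ℝ) + 1) ^ d := by positivity
  have h7 : (l : ℝ) * M ≤ l * (ε * (2 * H + 1) ^ d) := by
    calc (l : ℝ) * M ≤ (3 / 2) ^ d * (2 * H + 1) ^ d := h3.trans h4
      _ ≤ (ε * l) * (2 * H + 1) ^ d := mul_le_mul_of_nonneg_right h5 h6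
      _ = l * (ε * (2 * H + 1) ^ d) := by ring
  exact le_of_mul_le_mul_left h7 hl'

open Classical in
/-- halting density -/
theorem fiber_density {d : ℕ} (hd : 1 ≤ d) (c : Fin d → ℤ) (hc : c ⟨d - 1, by omega⟩ ≠ 0)
    (hsq : Squarefree ((charPoly c).map (Int.castRingHom ℚ))) (P : (Fin d → ℤ) → Prop)
    (hP : ∀ a u, IsSeq c a u → (∃ q : ℕ, q.Prime ∧ ∀ n, ¬ (q : ℤ) ∣ u n) → P a)
    (b : ℕ → Fin d → ℤ) :
    Filter.Tendsto (fun H : ℕ => (((box (b H) H).filter P).card : ℝ) / (2 * H + 1) ^ d)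
      Filter.atTop (nhds 1) := by
  rw [Metric.tendsto_atTop]
  intro ε hε
  obtain ⟨p, hp, _, h⟩ := fiber_box hd c hc hsq (ε / 2) (by positivity) 0
  refine ⟨p, fun H hH => ?_⟩
  have hpos : (0 : ℝ) < (2 * (H : ℝ) + 1) ^ d := by positivity
  have h1 := h H hH (b H)
  have h2 : (box (b H) H).filter (fun a => ¬ P a) ⊆
      (box (b H) H).filter (fun a => ∃ u, IsSeq c a u ∧ ∃ n, (p : ℤ) ∣ u n) := by
    intro a ha
    rw [Finset.mem_filter] at ha ⊢
    refine ⟨ha.1, ?_⟩
    obtain ⟨u, hu⟩ := exists_isSeq c a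
    refine ⟨u, hu, ?_⟩
    by_contra hcon
    push Not at hcon
    exact ha.2 (hP a u hu ⟨p, hp, hcon⟩)
  have h3 : ((box (b H) H).filter P).card + ((box (b H) H).filter (fun a => ¬ P a)).card =
      (2 * H + 1) ^ d := by
    rw [Finset.card_filter_add_card_filter_not, card_box]
  have h4 : (((box (b H) H).filter P).card : ℝ) + ((box (b H) H).filter (fun a => ¬ P a)).card =
      (2 * (H : ℝ) + 1) ^ d := by exact_mod_cast h3
  have h5 : ((((box (b H) H).filter (fun a => ¬ P a)).card : ℕ) : ℝ) ≤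
      ε / 2 * (2 * H + 1) ^ d := by
    refine le_trans ?_ h1
    exact_mod_cast Finset.card_le_card h2
  rw [Real.dist_eq, abs_lt]
  constructor
  · rw [lt_sub_iff_add_lt, lt_div_iff₀ hpos]
    nlinarith
  · rw [sub_lt_iff_lt_add, div_lt_iff₀ hpos]
    have : (0 : ℝ) ≤ (((box (b H) H).filter (fun a => ¬ P a)).card : ℝ) := by positivity
    nlinarith

end Pool.Agent.H884R2.Sko
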