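import Pool.Agent.H884R2.Sko.Good

set_option autoImplicit false

namespace Pool.Agent.H884R2.Sko
open Finset

/-- Reduction of an input modulo `p`. -/
def red {d : ℕ} (p : ℕ) (x : (Fin d → ℤ) × (Fin d → ℤ)) : (Fin d → ZMod p) × (Fin d → ZMod p) :=
  (fun i => (x.1 i : ZMod p), fun i => (x.2 i : ZMod p))

/-- Integers of absolute value at most `H` in a residue class modulo `N`. -/
theorem card_class (H N : ℕ) (hN : 0 < N) (z : ℤ) (A : Finset ℤ)
    (hA : ∀ w ∈ A, |w| ≤ (H : ℤ) ∧ (N : ℤ) ∣ w - z) : A.card ≤ 2 * H / N + 1 := by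
  have hNz : (0 : ℤ) < N := by exact_mod_cast hN
  rw [← Finset.card_range (2 * H / N + 1)]
  apply Finset.card_le_card_of_injOn (fun w : ℤ => ((w + (H : ℤ)) / (N : ℤ)).toNat)
  · intro w hw
    obtain ⟨h1, _⟩ := hA w hw
    rw [abs_le] at h1
    rw [Finset.mem_coe, Finset.mem_range]
    have h2 : (w + H) / N ≤ ((2 * H / N : ℕ) : ℤ) := by
      rw [Int.natCast_div]
      apply Int.ediv_le_ediv hNz
      push_cast
      linarith
    have h3 : 0 ≤ (w + H) / N := Int.ediv_nonneg (by linarith) hNz.le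
    show ((w + (H : ℤ)) / (N : ℤ)).toNat < 2 * H / N + 1
    generalize (w + (H : ℤ)) / (N : ℤ) = a at h2 h3 ⊢
    generalize 2 * H / N = b at h2 ⊢
    omega
  · intro w hw w' hw' h
    obtain ⟨h1, h1'⟩ := hA w hw
    obtain ⟨h2, h2'⟩ := hA w' hw'
    rw [abs_le] at h1 h2
    simp only at h
    have h3 : 0 ≤ (w + H) / N := Int.ediv_nonneg (by linarith) hNz.le
    have h4 : 0 ≤ (w' + H) / N := Int.ediv_nonneg (by linarith) hNz.le
    have h5 : (w + H) / N = (w' + H) / N := by omega
    have h6 : (N : ℤ) ∣ w - w' := by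
      have := dvd_sub h1' h2'
      have e : w - z - (w' - z) = w - w' := by ring
      rwa [e] at this
    obtain ⟨k, hk⟩ := h6
    have h7 := Int.emod_add_mul_ediv (w + H) N
    have h8 := Int.emod_add_mul_ediv (w' + H) N
    have h9 := Int.emod_nonneg (w + H) hNz.ne'
    have h10 := Int.emod_nonneg (w' + H) hNz.ne'
    have h11 := Int.emod_lt_of_pos (w + H) hNz
    have h12 := Int.emod_lt_of_pos (w' + H) hNz
    rw [h5] at h7
    have hlt : |(N : ℤ) * k| < N := by
      rw [← hk, abs_lt]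
      constructor <;> linarith
    have hk0 : k = 0 := by
      by_contra hk0
      have : 1 ≤ |k| := Int.one_le_abs hk0
      rw [abs_mul, abs_of_pos hNz] at hlt
      nlinarith
    rw [hk0, mul_zero] at hk
    linarith

open Classical in
/-- Sieve bound by the Chinese remainder theorem. -/
theorem sieve_count {d : ℕ} (P : Finset ℕ) (hP : ∀ p ∈ P, p.Prime) (H : ℕ)
    (Ω : ∀ p : ℕ, Finset ((Fin d → ZMod p) × (Fin d → ZMod p)))
    (B : Finset ((Fin d → ℤ) × (Fin d → ℤ)))
    (hB : ∀ x ∈ B, (∀ i, |x.1 i| ≤ (H : ℤ)) ∧ (∀ i, |x.2 i| ≤ (H : ℤ)) ∧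
      ∀ p ∈ P, red p x ∈ Ω p) :
    B.card ≤ (2 * H / (∏ p ∈ P, p) + 1) ^ (2 * d) * ∏ p ∈ P, (Ω p).card := by
  set N : ℕ := ∏ p ∈ P, p with hN
  have hNpos : 0 < N := Finset.prod_pos fun p hp => (hP p hp).pos
  set f : ((Fin d → ℤ) × (Fin d → ℤ)) → (∀ p : P, (Fin d → ZMod p) × (Fin d → ZMod p)) :=
    fun x p => red p x with hf
  have h1 : B.card ≤ (2 * H / N + 1) ^ (2 * d) * (B.image f).card := by
    apply Finset.card_le_mul_card_image
    intro r hr
    rw [Finset.mem_image] at hr
    obtain ⟨x₀, hx₀, hr⟩ := hr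
    have hsub : B.filter (fun x => f x = r) ⊆
        (Fintype.piFinset fun i => (Finset.Icc (-(H : ℤ)) H).filter
          (fun w => (N : ℤ) ∣ w - x₀.1 i)) ×ˢ
        (Fintype.piFinset fun i => (Finset.Icc (-(H : ℤ)) H).filter
          (fun w => (N : ℤ) ∣ w - x₀.2 i)) := by
      intro x hx
      rw [Finset.mem_filter] at hx
      obtain ⟨hxB, hxr⟩ := hx
      obtain ⟨hb1, hb2, _⟩ := hB x hxB
      have hdvd : ∀ (w z : ℤ), (∀ p ∈ P, (w : ZMod p) = (z : ZMod p)) → (N : ℤ) ∣ w - z := by
        intro w z h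
        rw [hN]
        push_cast
        apply Finset.prod_dvd_of_coprime
        · intro p hp q hq hpq
          have := (Nat.coprime_primes (hP p hp) (hP q hq)).2 hpq
          exact Nat.isCoprime_iff_coprime.2 this
        · intro p hp
          have := h p hp
          rw [← sub_eq_zero, ← Int.cast_sub, ZMod.intCast_zmod_eq_zero_iff_dvd] at this
          exact this
      have hred : ∀ p ∈ P, red p x = red p x₀ := by
        intro p hp
        have := congrFun (hxr.trans hr.symm) ⟨p, hp⟩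
        exact this
      rw [Finset.mem_product, Fintype.mem_piFinset, Fintype.mem_piFinset]
      constructor
      · intro i
        rw [Finset.mem_filter, Finset.mem_Icc]
        refine ⟨abs_le.1 (hb1 i), hdvd _ _ fun p hp => ?_⟩
        exact congrFun (congrArg Prod.fst (hred p hp)) i
      · intro i
        rw [Finset.mem_filter, Finset.mem_Icc]
        refine ⟨abs_le.1 (hb2 i), hdvd _ _ fun p hp => ?_⟩
        exact congrFun (congrArg Prod.snd (hred p hp)) i
    refine (Finset.card_le_card hsub).trans ?_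
    rw [Finset.card_product, Fintype.card_piFinset, Fintype.card_piFinset, two_mul d, pow_add]
    have hone : ∀ z : ℤ, ((Finset.Icc (-(H : ℤ)) H).filter (fun w => (N : ℤ) ∣ w - z)).card ≤
        2 * H / N + 1 := by
      intro z
      apply card_class H N hNpos z
      intro w hw
      rw [Finset.mem_filter, Finset.mem_Icc] at hw
      exact ⟨abs_le.2 hw.1, hw.2⟩
    have hprod : ∀ g : Fin d → ℤ, ∏ i, ((Finset.Icc (-(H : ℤ)) H).filter
        (fun w => (N : ℤ) ∣ w - g i)).card ≤ (2 * H / N + 1) ^ d := by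
      intro g
      calc _ ≤ ∏ _i : Fin d, (2 * H / N + 1) := Finset.prod_le_prod' fun i _ => hone (g i)
        _ = _ := by simp
    exact Nat.mul_le_mul (hprod _) (hprod _)
  refine h1.trans (Nat.mul_le_mul_left _ ?_)
  have h2 : B.image f ⊆ Fintype.piFinset (fun p : P => Ω p) := by
    intro r hr
    rw [Finset.mem_image] at hr
    obtain ⟨x, hx, rfl⟩ := hr
    rw [Fintype.mem_piFinset]
    intro p
    exact (hB x hx).2.2 p p.2
  refine (Finset.card_le_card h2).trans_eq ?_
  rw [Fintype.card_piFinset]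
  exact Finset.prod_coe_sort P (fun p => (Ω p).card)

end Pool.Agent.H884R2.Sko
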