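import Pool.Agent.H884R2.Sko.Split
import Pool.Agent.H884R2.Sko.Sieve

set_option autoImplicit false

/-!
For every integer recurrence with squarefree characteristic polynomial and every `l` there are
arbitrarily large primes `p` such that at most a proportion `1 / l` of the vectors of initial
values modulo `p` gives a sequence with a zero term modulo `p`.
-/

namespace Pool.Agent.H884R2.Sko
open Polynomial Finset

/-- the characteristic polynomial, in the indexing of `seq` -/
noncomputable def chi {R : Type*} [CommRing R] {d : ℕ} (c : Fin d → R) : R[X] :=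
  X ^ d - ∑ i : Fin d, C (c i) * X ^ (i : ℕ)

section chi
variable {R : Type*} [CommRing R] {d : ℕ} (c : Fin d → R)

theorem chi_tail : (∑ i : Fin d, C (c i) * X ^ (i : ℕ) : R[X]).degree < d := by
  refine (degree_sum_le _ _).trans_lt ?_
  rw [Finset.sup_lt_iff (by exact_mod_cast WithBot.bot_lt_coe _)]
  intro i _
  refine (degree_C_mul_X_pow_le _ _).trans_lt ?_
  exact_mod_cast i.2

theorem chi_monic : (chi c).Monic := monic_X_pow_sub (chi_tail c)

theorem chi_natDegree [Nontrivial R] : (chi c).natDegree = d := by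
  unfold chi
  apply natDegree_eq_of_degree_eq_some
  rw [degree_sub_eq_left_of_degree_lt]
  · simp
  · rw [degree_X_pow]; exact chi_tail c

theorem chi_coeff (i : Fin d) : (chi c).coeff i = - c i := by
  unfold chi
  rw [coeff_sub, coeff_X_pow, if_neg i.2.ne, finset_sum_coeff, zero_sub]
  congr 1
  rw [Finset.sum_eq_single i]
  · rw [coeff_C_mul, coeff_X_pow, if_pos rfl, mul_one]
  · intro j _ hj
    rw [coeff_C_mul, coeff_X_pow, if_neg, mul_zero]
    intro h
    exact hj (Fin.ext h.symm)
  · intro h; exact absurd (mem_univ _) h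

theorem chi_map {S : Type*} [CommRing S] (φ : R →+* S) :
    (chi c).map φ = chi (fun i => φ (c i)) := by
  unfold chi
  rw [Polynomial.map_sub, Polynomial.map_pow, map_X, Polynomial.map_sum]
  congr 1
  refine Finset.sum_congr rfl fun i _ => ?_
  rw [Polynomial.map_mul, map_C, Polynomial.map_pow, map_X]

end chi

open Classical in
theorem card_bad_of_splits (p l : ℕ) [Fact p.Prime] (hl : 1 ≤ l) {d : ℕ} (hd : 1 ≤ d)
    (c : Fin d → ZMod p) (h1 : (chi c).Splits) (h2 : (expand (ZMod p) l (chi c)).Splits)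
    (h3 : (cyclotomic l (ZMod p)).Splits) (hpl : ¬ p ∣ l) (hsep : (chi c).Separable)
    (h0 : (chi c).coeff 0 ≠ 0) :
    l * ((univ : Finset (Fin d → ZMod p)).filter (fun v => ∃ n, seq c v n = 0)).card ≤ p ^ d := by
  have hp : p.Prime := Fact.out
  have hne : chi c ≠ 0 := (chi_monic c).ne_zero
  set S : Finset (ZMod p) := (chi c).roots.toFinset with hS
  have hnd : (chi c).roots.Nodup := nodup_roots hsep
  have hval : S.val = (chi c).roots := by
    rw [hS, Multiset.toFinset_val, hnd.dedup]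
  have hcard : S.card = d := by
    rw [Finset.card_def, hval, ← h1.natDegree_eq_card_roots, chi_natDegree]
  have hpoly : poly S = chi c := by
    unfold poly
    rw [Finset.prod_eq_multiset_prod, hval]
    exact (h1.eq_prod_roots_of_monic (chi_monic c)).symm
  have hcoef : coef d S = c := by
    funext i
    unfold coef
    rw [hpoly, chi_coeff, neg_neg]
  have hlne : NeZero ((l : ℕ) : ZMod p) := by
    refine ⟨fun h => hpl ?_⟩
    rwa [ZMod.natCast_eq_zero_iff] at h
  -- `l` divides `p - 1`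
  have hdvd : l ∣ p - 1 := by
    obtain ⟨μ, hμ⟩ := h3.exists_eval_eq_zero (by
      rw [degree_cyclotomic]
      have := Nat.totient_pos.2 hl
      exact_mod_cast this.ne')
    have hprim : IsPrimitiveRoot μ l := isRoot_cyclotomic_iff.1 hμ
    apply hprim.dvd_of_pow_eq_one
    apply ZMod.pow_card_sub_one_eq_one
    rintro rfl
    have := hprim.pow_eq_one
    rw [zero_pow (by omega)] at this
    exact zero_ne_one this
  obtain ⟨T, hT⟩ := hdvd
  have hp1 : 1 ≤ p - 1 := by have := hp.two_le; omega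
  have hTpos : 0 < T := by
    rcases Nat.eq_zero_or_pos T with h | h
    · subst h; omega
    · exact h
  have hST : ∀ a ∈ S, a ^ T = 1 := by
    intro a ha
    rw [hS, Multiset.mem_toFinset, mem_roots hne] at ha
    have ha0 : a ≠ 0 := by
      rintro rfl
      rw [IsRoot, ← coeff_zero_eq_eval_zero] at ha
      exact h0 ha
    have h4 : (X ^ l - C a : (ZMod p)[X]) ∣ expand (ZMod p) l (chi c) := by
      have h5 := map_dvd (expand (ZMod p) l) (dvd_iff_isRoot.2 ha)
      rwa [map_sub, expand_X, expand_C] at h5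
    have h6 : expand (ZMod p) l (chi c) ≠ 0 := by
      rw [Ne, expand_eq_zero (by omega)]; exact hne
    have h7 := h2.of_dvd h6 h4
    obtain ⟨β, hβ⟩ := h7.exists_eval_eq_zero (by
      rw [degree_X_pow_sub_C (by omega)]
      exact_mod_cast (by omega : l ≠ 0))
    rw [eval_sub, eval_pow, eval_X, eval_C, sub_eq_zero] at hβ
    have hβ0 : β ≠ 0 := by
      rintro rfl
      rw [zero_pow (by omega)] at hβ
      exact ha0 hβ.symm
    rw [← hβ, ← pow_mul, ← hT]
    exact ZMod.pow_card_sub_one_eq_one hβ0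
  have hne' : S.Nonempty := Finset.card_pos.1 (by omega)
  have h8 := card_bad d T hTpos S hcard hne' hST
  rw [hcoef, ZMod.card] at h8
  set bad := ((univ : Finset (Fin d → ZMod p)).filter (fun v => ∃ n, seq c v n = 0)).card
  have h9 : l * bad * p ≤ p ^ d * p := by
    calc l * bad * p = l * (bad * p) := by ring
      _ ≤ l * (T * p ^ d) := Nat.mul_le_mul_left _ h8
      _ = (p - 1) * p ^ d := by rw [hT]; ring
      _ ≤ p * p ^ d := Nat.mul_le_mul_right _ (Nat.sub_le _ _)
      _ = p ^ d * p := by ring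
  exact Nat.le_of_mul_le_mul_right h9 hp.pos

theorem separable_mod (F : ℤ[X]) (hsq : Squarefree (F.map (Int.castRingHom ℚ))) :
    ∃ r : ℤ, r ≠ 0 ∧ ∀ p : ℕ, p.Prime → ¬ (p : ℤ) ∣ r →
      (F.map (Int.castRingHom (ZMod p))).Separable := by
  have hsep : (F.map (Int.castRingHom ℚ)).Separable := PerfectField.separable_iff_squarefree.2 hsq
  obtain ⟨a, b, hab⟩ := hsep
  obtain ⟨na, hna⟩ := IsLocalization.integerNormalization_map_to_map (nonZeroDivisors ℤ) a
  obtain ⟨nb, hnb⟩ := IsLocalization.integerNormalization_map_to_map (nonZeroDivisors ℤ) b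
  set A := IsLocalization.integerNormalization (nonZeroDivisors ℤ) a
  set B := IsLocalization.integerNormalization (nonZeroDivisors ℤ) b
  have hna0 : (na : ℤ) ≠ 0 := nonZeroDivisors.ne_zero na.2
  have hnb0 : (nb : ℤ) ≠ 0 := nonZeroDivisors.ne_zero nb.2
  have halg : algebraMap ℤ ℚ = Int.castRingHom ℚ := rfl
  rw [halg] at hna hnb
  have hinj : Function.Injective (Int.castRingHom ℚ) := Int.cast_injective
  have key : C (nb : ℤ) * A * F + C (na : ℤ) * B * derivative F = C ((na : ℤ) * nb) := by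
    apply Polynomial.map_injective (Int.castRingHom ℚ) hinj
    rw [Polynomial.map_add, Polynomial.map_mul, Polynomial.map_mul, Polynomial.map_mul,
      Polynomial.map_mul, map_C, map_C, map_C, hna, hnb, ← derivative_map]
    have e1 : ((na : ℤ) • a : ℚ[X]) = C (((na : ℤ) : ℚ)) * a := by
      rw [← smul_eq_C_mul, Int.cast_smul_eq_zsmul]
    have e2 : ((nb : ℤ) • b : ℚ[X]) = C (((nb : ℤ) : ℚ)) * b := by
      rw [← smul_eq_C_mul, Int.cast_smul_eq_zsmul]
    rw [e1, e2]
    simp only [eq_intCast, Int.cast_mul, C_mul]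
    linear_combination (C (((na : ℤ) : ℚ)) * C (((nb : ℤ) : ℚ))) * hab
  obtain ⟨P1, P2, key'⟩ : ∃ P1 P2 : ℤ[X], P1 * F + P2 * derivative F = C ((na : ℤ) * nb) :=
    ⟨_, _, key⟩
  refine ⟨(na : ℤ) * nb, mul_ne_zero hna0 hnb0, fun p hp hpr => ?_⟩
  have : Fact p.Prime := ⟨hp⟩
  have h1 := congrArg (Polynomial.map (Int.castRingHom (ZMod p))) key'
  rw [Polynomial.map_add, Polynomial.map_mul, Polynomial.map_mul, map_C,
    ← derivative_map] at h1
  have h2 : (Int.castRingHom (ZMod p)) ((na : ℤ) * nb) ≠ 0 := by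
    rw [eq_intCast, Ne, ZMod.intCast_zmod_eq_zero_iff_dvd]
    exact hpr
  set t : ZMod p := (Int.castRingHom (ZMod p)) ((na : ℤ) * nb) with ht
  refine ⟨C t⁻¹ * Polynomial.map (Int.castRingHom (ZMod p)) P1,
    C t⁻¹ * Polynomial.map (Int.castRingHom (ZMod p)) P2, ?_⟩
  rw [mul_assoc, mul_assoc, ← mul_add, h1, ← C_mul, inv_mul_cancel₀ h2, C_1]

open Classical in
/-- Main local statement. -/
theorem fiber_prime {d : ℕ} (hd : 1 ≤ d) (c : Fin d → ℤ) (h0 : (chi c).coeff 0 ≠ 0)
    (hsq : Squarefree ((chi c).map (Int.castRingHom ℚ))) (l : ℕ) (hl : 1 ≤ l) (N : ℕ) :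
    ∃ p : ℕ, ∃ _ : Fact p.Prime, N < p ∧
      l * ((univ : Finset (Fin d → ZMod p)).filter
        (fun v => ∃ n, seq (fun i => (c i : ZMod p)) v n = 0)).card ≤ p ^ d := by
  obtain ⟨r, hr0, hr⟩ := separable_mod (chi c) hsq
  set G : ℤ[X] := chi c * (expand ℤ l (chi c) * cyclotomic l ℤ) with hG
  have hGm : G.Monic := (chi_monic c).mul (((chi_monic c).expand (by omega)).mul
    (cyclotomic.monic l ℤ))
  obtain ⟨p, hp, hpN, hsp⟩ := exists_split G hGm (N + l + r.natAbs + ((chi c).coeff 0).natAbs)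
  haveI : Fact p.Prime := ⟨hp⟩
  refine ⟨p, ⟨hp⟩, by omega, ?_⟩
  have hGne : G.map (Int.castRingHom (ZMod p)) ≠ 0 := (hGm.map _).ne_zero
  have hdv : ∀ z : ℤ, z ≠ 0 → z.natAbs < p → ¬ (p : ℤ) ∣ z := by
    intro z hz hzp hdvd
    have := Int.natAbs_dvd_natAbs.2 hdvd
    rw [Int.natAbs_natCast] at this
    exact absurd (Nat.le_of_dvd (Int.natAbs_pos.2 hz) this) (not_le.2 hzp)
  have hcm : (chi c).map (Int.castRingHom (ZMod p)) = chi (fun i => (c i : ZMod p)) := by
    rw [chi_map]; rfl
  have e1 : (chi (fun i => (c i : ZMod p))) ∣ G.map (Int.castRingHom (ZMod p)) := by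
    rw [← hcm, hG, Polynomial.map_mul]; exact dvd_mul_right _ _
  have e2 : expand (ZMod p) l (chi (fun i => (c i : ZMod p))) ∣
      G.map (Int.castRingHom (ZMod p)) := by
    rw [← hcm, ← map_expand, hG, Polynomial.map_mul, Polynomial.map_mul]
    exact (dvd_mul_right _ _).mul_left _
  have e3 : cyclotomic l (ZMod p) ∣ G.map (Int.castRingHom (ZMod p)) := by
    rw [← map_cyclotomic l (Int.castRingHom (ZMod p)), hG, Polynomial.map_mul,
      Polynomial.map_mul]
    exact (dvd_mul_left _ _).mul_left _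
  apply card_bad_of_splits p l hl hd _ (hsp.of_dvd hGne e1) (hsp.of_dvd hGne e2)
    (hsp.of_dvd hGne e3)
  · intro h
    exact absurd (Nat.le_of_dvd (by omega) h) (by omega)
  · rw [← hcm]
    exact hr p hp (hdv r hr0 (by omega))
  · rw [← hcm, coeff_map, eq_intCast, Ne, ZMod.intCast_zmod_eq_zero_iff_dvd]
    exact hdv _ h0 (by omega)

end Pool.Agent.H884R2.Sko
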