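import Pool.Agent.H884R2.Sko.Local

set_option autoImplicit false

namespace Pool.Agent.H884R2.Sko
open Finset Polynomial

/-- `(p - 1) / 2` elements of `ZMod p` with `a ^ ((p - 1) / 2) = 1`. -/
theorem exists_squares (p : ℕ) [Fact p.Prime] (T : ℕ) (hT : 2 * T = p - 1) :
    ∃ Q : Finset (ZMod p), Q.card = T ∧ ∀ a ∈ Q, a ^ T = 1 := by
  classical
  obtain ⟨g, hg⟩ := IsCyclic.exists_generator (α := (ZMod p)ˣ)
  have hord : orderOf g = p - 1 := by
    rw [orderOf_eq_card_of_forall_mem_zpowers hg, Nat.card_eq_fintype_card, ZMod.card_units]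
  refine ⟨(range T).image (fun i => (((g ^ (2 * i) : (ZMod p)ˣ)) : ZMod p)), ?_, ?_⟩
  · rw [Finset.card_image_of_injOn, Finset.card_range]
    intro i hi j hj h
    have h1 : g ^ (2 * i) = g ^ (2 * j) := Units.ext h
    have hi' : i < T := Finset.mem_range.1 (by simpa using hi)
    have hj' : j < T := Finset.mem_range.1 (by simpa using hj)
    have h2 := pow_injOn_Iio_orderOf (x := g) (by rw [Set.mem_Iio, hord]; omega)
      (by rw [Set.mem_Iio, hord]; omega) h1
    omega
  · intro a ha
    rw [Finset.mem_image] at ha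
    obtain ⟨i, _, rfl⟩ := ha
    rw [← Units.val_pow_eq_pow_val, ← pow_mul]
    have h1 : 2 * i * T = (p - 1) * i := by rw [← hT]; ring
    rw [h1, pow_mul, ← hord, pow_orderOf_eq_one, one_pow, Units.val_one]

/-- The pairs (coefficients, initial values) over `R` whose sequence has no zero term. -/
def NoZero {R : Type*} [CommRing R] {d : ℕ} (x : (Fin d → R) × (Fin d → R)) : Prop :=
  ∀ n, seq x.1 x.2 n ≠ 0

open Classical in
/-- A positive proportion of the recurrence sequences of order `d` over `ZMod p` has no zero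
term. -/
theorem card_good (p : ℕ) [Fact p.Prime] (d : ℕ) (hd : 1 ≤ d) (hp : 4 * d ≤ p) :
    p ^ (2 * d) ≤ 2 * 4 ^ d * d.factorial *
      ((univ : Finset ((Fin d → ZMod p) × (Fin d → ZMod p))).filter (fun x => NoZero x)).card := by
  have hprime : p.Prime := Fact.out
  have hp4 : 4 ≤ p := by omega
  obtain ⟨T, hT⟩ : ∃ T, 2 * T = p - 1 := by
    have hodd : Odd p := hprime.odd_of_ne_two (by omega)
    obtain ⟨k, hk⟩ := hodd
    exact ⟨k, by omega⟩
  have hTpos : 0 < T := by omega
  obtain ⟨Q, hQ1, hQ2⟩ := exists_squares p T hT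
  set good : Finset (ZMod p) → Finset (Fin d → ZMod p) := fun S =>
    (univ : Finset (Fin d → ZMod p)).filter (fun v => ¬ ∃ n, seq (coef d S) v n = 0) with hgood
  -- the injection
  have hinj : (∑ S ∈ Q.powersetCard d, (good S).card) ≤
      ((univ : Finset ((Fin d → ZMod p) × (Fin d → ZMod p))).filter (fun x => NoZero x)).card := by
    rw [← Finset.card_sigma]
    apply Finset.card_le_card_of_injOn (fun x => (coef d x.1, x.2))
    · intro x hx
      rw [Finset.mem_coe, Finset.mem_sigma] at hx
      rw [Finset.mem_coe, Finset.mem_filter]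
      refine ⟨mem_univ _, ?_⟩
      intro n hn
      have := (Finset.mem_filter.1 hx.2).2
      exact this ⟨n, hn⟩
    · rintro ⟨S, v⟩ hx ⟨S', v'⟩ hx' h
      rw [Finset.mem_coe, Finset.mem_sigma] at hx hx'
      simp only [Prod.mk.injEq] at h
      obtain ⟨h1, h2⟩ := h
      have h3 := coef_inj (Finset.mem_powersetCard.1 hx.1).2 (Finset.mem_powersetCard.1 hx'.1).2 h1
      simp only at h3
      subst h3
      subst h2
      rfl
  have hgoodcard : ∀ S ∈ Q.powersetCard d, p ^ d ≤ 2 * (good S).card := by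
    intro S hS
    rw [Finset.mem_powersetCard] at hS
    have hne : S.Nonempty := Finset.card_pos.1 (by omega)
    have h1 := card_bad d T hTpos S hS.2 hne (fun a ha => hQ2 a (hS.1 ha))
    rw [ZMod.card] at h1
    have h2 : ((univ : Finset (Fin d → ZMod p)).filter
        (fun v => ∃ n, seq (coef d S) v n = 0)).card + (good S).card = p ^ d := by
      rw [hgood]
      simp only
      rw [Finset.card_filter_add_card_filter_not, Finset.card_univ, Fintype.card_fun,
        Fintype.card_fin, ZMod.card]
    set bad := ((univ : Finset (Fin d → ZMod p)).filter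
        (fun v => ∃ n, seq (coef d S) v n = 0)).card with hbad
    have h3 : 2 * bad ≤ p ^ d := by
      have h4 : 2 * bad * p ≤ (p - 1) * p ^ d := by
        calc 2 * bad * p = 2 * (bad * p) := by ring
          _ ≤ 2 * (T * p ^ d) := Nat.mul_le_mul_left _ h1
          _ = (p - 1) * p ^ d := by rw [← hT]; ring
      have h5 : (p - 1) * p ^ d ≤ p ^ d * p := by
        rw [mul_comm]; exact Nat.mul_le_mul_left _ (Nat.sub_le _ _)
      exact Nat.le_of_mul_le_mul_right (h4.trans h5) (by omega)
    omega
  have hchoose : p ^ d ≤ 4 ^ d * d.factorial * (Q.powersetCard d).card := by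
    rw [Finset.card_powersetCard, hQ1]
    have h1 := Nat.pow_sub_le_descFactorial T d
    rw [Nat.descFactorial_eq_factorial_mul_choose] at h1
    calc p ^ d ≤ (4 * (T + 1 - d)) ^ d := Nat.pow_le_pow_left (by omega) _
      _ = 4 ^ d * (T + 1 - d) ^ d := by rw [mul_pow]
      _ ≤ 4 ^ d * (d.factorial * T.choose d) := Nat.mul_le_mul_left _ h1
      _ = 4 ^ d * d.factorial * T.choose d := by ring
  have hsum : (Q.powersetCard d).card * p ^ d ≤ 2 * ∑ S ∈ Q.powersetCard d, (good S).card := by
    rw [Finset.mul_sum, ← smul_eq_mul (Q.powersetCard d).card]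
    exact Finset.card_nsmul_le_sum _ _ _ hgoodcard
  calc p ^ (2 * d) = p ^ d * p ^ d := by rw [two_mul, pow_add]
    _ ≤ (4 ^ d * d.factorial * (Q.powersetCard d).card) * p ^ d := Nat.mul_le_mul_right _ hchoose
    _ = 4 ^ d * d.factorial * ((Q.powersetCard d).card * p ^ d) := by ring
    _ ≤ 4 ^ d * d.factorial * (2 * ∑ S ∈ Q.powersetCard d, (good S).card) :=
        Nat.mul_le_mul_left _ hsum
    _ = 2 * 4 ^ d * d.factorial * ∑ S ∈ Q.powersetCard d, (good S).card := by ring
    _ ≤ _ := Nat.mul_le_mul_left _ hinj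

end Pool.Agent.H884R2.Sko
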