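import Pool.Agent.H692R2.USS.SplitField
import Pool.Agent.H692R2.USS.T5

set_option autoImplicit false

namespace Pool.Agent.H884R2.Sko
open Polynomial Pool.Agent.H692R2.USS

/-- a number field such that a degree one prime above `p` forces `g` to split modulo `p` -/
theorem splitField_one (g : ℤ[X]) (hg : g.Monic) : ∃ (K : Type) (_ : Field K) (_ : NumberField K),
    ∀ p : ℕ, p.Prime → HasDegOne K p → (g.map (Int.castRingHom (ZMod p))).Splits := by
  let K : Type := (g.map (algebraMap ℤ ℚ)).SplittingField
  letI : Field K := inferInstanceAs (Field (g.map (algebraMap ℤ ℚ)).SplittingField)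
  haveI hNF : NumberField K :=
    { to_charZero := inferInstanceAs (CharZero (g.map (algebraMap ℤ ℚ)).SplittingField)
      to_finiteDimensional :=
        inferInstanceAs (FiniteDimensional ℚ (g.map (algebraMap ℤ ℚ)).SplittingField) }
  refine ⟨K, inferInstance, hNF, ?_⟩
  have h0 : (g.map (algebraMap ℤ K)).Splits := by
    have h1 : (g.map (algebraMap ℤ ℚ)).map (algebraMap ℚ K) = g.map (algebraMap ℤ K) := by
      rw [Polynomial.map_map]
      congr 1
    have h2 : ((g.map (algebraMap ℤ ℚ)).map (algebraMap ℚ K)).Splits :=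
      Polynomial.SplittingField.splits (g.map (algebraMap ℤ ℚ))
    rwa [h1] at h2
  rintro p hp ⟨v, hv⟩
  have h1 := SplitFieldAux.splits_OK K g hg h0
  have hcard : Nat.card (NumberField.RingOfIntegers K ⧸ v.asIdeal) = p := by
    rw [← hv, Ideal.absNorm_apply]
    rfl
  have hfin : Finite (NumberField.RingOfIntegers K ⧸ v.asIdeal) :=
    Nat.finite_of_card_ne_zero (by rw [hcard]; exact hp.ne_zero)
  have := Fintype.ofFinite (NumberField.RingOfIntegers K ⧸ v.asIdeal)
  have hcard' : Fintype.card (NumberField.RingOfIntegers K ⧸ v.asIdeal) = p := by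
    rw [← Nat.card_eq_fintype_card]; exact hcard
  let e := ZMod.ringEquivOfPrime (NumberField.RingOfIntegers K ⧸ v.asIdeal) hp hcard'
  let φ : NumberField.RingOfIntegers K →+* ZMod p :=
    (e.symm : _ →+* ZMod p).comp (Ideal.Quotient.mk v.asIdeal)
  have h2 := h1.map φ
  rw [Polynomial.map_map] at h2
  have h3 : φ.comp (algebraMap ℤ (NumberField.RingOfIntegers K)) = Int.castRingHom (ZMod p) :=
    RingHom.ext_int _ _
  rwa [h3] at h2

/-- a monic integer polynomial splits completely modulo infinitely many primes -/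
theorem exists_split (g : ℤ[X]) (hg : g.Monic) (N : ℕ) :
    ∃ p : ℕ, p.Prime ∧ N < p ∧ (g.map (Int.castRingHom (ZMod p))).Splits := by
  classical
  obtain ⟨K, hF, hNF, hK⟩ := splitField_one g hg
  obtain ⟨c, C, hc, h⟩ := @massK bt K hF hNF
  by_contra hcon
  push Not at hcon
  have hbound : ∀ L : ℕ, 1 ≤ L → c * Real.log L - C ≤ N + 1 := by
    intro L hL
    refine (h L hL).trans ?_
    calc ∑ p ∈ (Finset.range (2 ^ L)).filter (fun p => p.Prime ∧ HasDegOne K p), (1 : ℝ) / p
        ≤ ∑ p ∈ (Finset.range (2 ^ L)).filter (fun p => p.Prime ∧ HasDegOne K p), (1 : ℝ) := by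
          refine Finset.sum_le_sum fun p hp => ?_
          rw [Finset.mem_filter] at hp
          have : (1 : ℝ) ≤ p := by exact_mod_cast hp.2.1.one_le
          rw [div_le_one (by linarith)]
          exact this
      _ ≤ ∑ p ∈ Finset.range (N + 1), (1 : ℝ) := by
          refine Finset.sum_le_sum_of_subset_of_nonneg ?_ (fun _ _ _ => by norm_num)
          intro p hp
          rw [Finset.mem_filter] at hp
          rw [Finset.mem_range]
          by_contra hlt
          exact hcon p hp.2.1 (by omega) (hK p hp.2.1 hp.2.2)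
      _ = N + 1 := by simp
  have htend : Filter.Tendsto (fun L : ℕ => c * Real.log L - C) Filter.atTop Filter.atTop := by
    apply Filter.tendsto_atTop_add_const_right
    exact Filter.Tendsto.const_mul_atTop hc
      (Real.tendsto_log_atTop.comp tendsto_natCast_atTop_atTop)
  obtain ⟨L, hL1, hL2⟩ := ((htend.eventually_gt_atTop ((N : ℝ) + 1)).and
    (Filter.eventually_ge_atTop 1)).exists
  exact absurd (hbound L hL2) (not_le.2 hL1)

end Pool.Agent.H884R2.Sko
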